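import Pool.Agent.H1.CA.TarP

/-!
# PC: definability of the notions of the forcing part
-/

set_option linter.unusedVariables false

open Ordinal Order Set
open scoped ZFSet

namespace Pool.Agent.H69.CA

open SF CAA

variable {f g h : (V → Prop) → (ℕ → V) → V}

/-! ### closed bounded sets -/

theorem isQ_iff (m e q : V) : IsQ m e q ↔ q ⊆ m ∧
    (q = ∅ ∨ ∃ d ∈ q, ∀ x ∈ q, x ∈ d ∨ x = d) ∧
    (∀ d ∈ m, ¬ d = ∅ → (∀ x ∈ d, ∃ y ∈ q, x ∈ y ∧ y ∈ d) → d ∈ q) ∧ ∀ x ∈ q, ¬ x ∈ e :=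
  ⟨fun h => ⟨h.sub, h.mx, h.cl, h.dj⟩, fun h => ⟨h.1, h.2.1, h.2.2.1, h.2.2.2⟩⟩

theorem dfb_isQ : Dfb ZFm (fun _ v => IsQ (v 0) (v 1) (v 2)) := by
  have h1 : Dfb ZFm (fun _ v => v 2 ⊆ v 0) := Dfb.subset (Tm.var 2) (Tm.var 0)
  have h2 : Dfb ZFm (fun _ v => v 2 = ∅ ∨ ∃ d ∈ v 2, ∀ x ∈ v 2, x ∈ d ∨ x = d) := by
    refine (Dfb.eq (Tm.var 2) Tm.empty).or ?_
    exact Dfb.bex (R := fun _ u => ∀ x ∈ u 3, x ∈ u 0 ∨ x = u 0) ktr_zfm (Tm.var 2)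
      (Dfb.ball (R := fun _ u => u 0 ∈ u 1 ∨ u 0 = u 1) ktr_zfm (Tm.var 3)
        ((Dfb.mem (Tm.var 0) (Tm.var 1)).or (Dfb.eq (Tm.var 0) (Tm.var 1))))
  have h3 : Dfb ZFm (fun _ v => ∀ d ∈ v 0, ¬ d = ∅ → (∀ x ∈ d, ∃ y ∈ v 2, x ∈ y ∧ y ∈ d) →
      d ∈ v 2) := by
    refine Dfb.ball (R := fun _ u => ¬ u 0 = ∅ → (∀ x ∈ u 0, ∃ y ∈ u 3, x ∈ y ∧ y ∈ u 0) →
      u 0 ∈ u 3) ktr_zfm (Tm.var 0) ?_
    refine (Dfb.eq (Tm.var 0) Tm.empty).not.imp (Dfb.imp ?_ (Dfb.mem (Tm.var 0) (Tm.var 3)))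
    exact Dfb.ball (R := fun _ u => ∃ y ∈ u 4, u 0 ∈ y ∧ y ∈ u 1) ktr_zfm (Tm.var 0)
      (Dfb.bex (R := fun _ u => u 1 ∈ u 0 ∧ u 0 ∈ u 2) ktr_zfm (Tm.var 4)
        ((Dfb.mem (Tm.var 1) (Tm.var 0)).and (Dfb.mem (Tm.var 0) (Tm.var 2))))
  have h4 : Dfb ZFm (fun _ v => ∀ x ∈ v 2, ¬ x ∈ v 1) :=
    Dfb.ball (R := fun _ u => ¬ u 0 ∈ u 2) ktr_zfm (Tm.var 2) (Dfb.mem (Tm.var 0) (Tm.var 2)).not
  exact (h1.and (h2.and (h3.and h4))).congr fun M k v hv => (isQ_iff _ _ _).symm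

theorem dfb_Ee : Dfb ZFm (fun _ v => Ee (v 0) (v 1)) := by
  refine (Dfb.subset (Tm.var 1) (Tm.var 0)).and ?_
  exact Dfb.ball (R := fun _ u => ∀ y ∈ u 2, u 0 ∈ y → u 0 ∈ u 2) ktr_zfm (Tm.var 0)
    (Dfb.ball (R := fun _ u => u 1 ∈ u 0 → u 1 ∈ u 3) ktr_zfm (Tm.var 2)
      ((Dfb.mem (Tm.var 1) (Tm.var 0)).imp (Dfb.mem (Tm.var 1) (Tm.var 3))))

/-! ### operations -/

theorem tm_rst : Tm ZFm (fun _ v => rst (v 0) (v 1)) :=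
  (Tm.sep (R := fun _ u => fst (u 0) ∈ u 1) (f := fun _ v => v 1)
    (Dfb.mem (Tm.fst (Tm.var 0)) (Tm.var 1)) (Tm.var 1)).congr fun M k v hv => rfl

theorem tm_cat : Tm ZFm (fun _ v => cat (v 0) (v 1) (v 2)) :=
  (Tm.union (Tm.sep (R := fun _ u => fst (u 0) ∈ u 1) (f := fun _ v => v 1)
      (Dfb.mem (Tm.fst (Tm.var 0)) (Tm.var 1)) (Tm.var 1))
    (Tm.sep (R := fun _ u => ¬ fst (u 0) ∈ u 1) (f := fun _ v => v 2)
      (Dfb.mem (Tm.fst (Tm.var 0)) (Tm.var 1)).not (Tm.var 2))).congr fun M k v hv => rfl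

theorem tm_upd : Tm ZFm (fun _ v => upd (v 0) (v 1) (v 2)) :=
  (Tm.ins (Tm.pair (Tm.var 1) (Tm.var 2))
    (Tm.sep (R := fun _ u => ¬ fst (u 0) = u 2) (f := fun _ v => v 0)
      (Dfb.eq (Tm.fst (Tm.var 0)) (Tm.var 2)).not (Tm.var 0))).congr fun M k v hv => rfl

theorem tm_fib : Tm ZFm (fun _ v => fib (v 0) (v 1)) :=
  (Tm.sep (R := fun _ u => ZFSet.pair (u 2) (u 0) ∈ u 1) (f := fun _ v => rg (v 0))
    (Dfb.mem (Tm.pair (Tm.var 2) (Tm.var 0)) (Tm.var 1)) (Tm.rg (Tm.var 0))).congr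
    fun M k v hv => rfl

theorem tm_Xs : Tm ZFm (fun _ v => Xs (v 0) (v 1)) :=
  (Tm.image (f := fun _ v => ZFSet.prod (v 0) (v 1))
    (g := fun _ u => ZFSet.pair (fst (u 0)) (app (snd (u 0)) (fst (u 0))))
    (Tm.prod (Tm.var 0) (Tm.var 1))
    (Tm.pair (Tm.fst (Tm.var 0)) (Tm.app (Tm.snd (Tm.var 0)) (Tm.fst (Tm.var 0))))).congr
    fun M k v hv => rfl

theorem tm_Qs : Tm ZFm (fun _ v => Qs (v 0) (v 1)) :=
  (Tm.image (f := fun _ v => v 1) (g := fun _ u => rst (u 1) (u 0)) (Tm.var 1)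
    (Tm.at2 (F := fun _ x y => rst x y) tm_rst (Tm.var 1) (Tm.var 0))).congr fun M k v hv => rfl

theorem tm_Qr : Tm ZFm (fun _ v => Qr (v 0) (v 1) (v 2)) := by
  have h1 : Tm ZFm (fun _ v => Qs (v 1) (v 2)) :=
    Tm.at2 (F := fun _ x y => Qs x y) tm_Qs (Tm.var 1) (Tm.var 2)
  have h2 : Dfb ZFm (fun _ u => ∀ k ∈ u 1, Ee (app (fst (u 0)) k) (app (snd (u 0)) k)) :=
    Dfb.ball (R := fun _ u => Ee (app (fst (u 1)) (u 0)) (app (snd (u 1)) (u 0))) ktr_zfm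
      (Tm.var 1) (Dfb.at2 (P := fun _ x y => Ee x y) dfb_Ee
        (Tm.app (Tm.fst (Tm.var 1)) (Tm.var 0)) (Tm.app (Tm.snd (Tm.var 1)) (Tm.var 0)))
  exact (Tm.sep (f := fun _ v => ZFSet.prod (Qs (v 1) (v 2)) (Qs (v 1) (v 2))) h2
    (Tm.prod h1 h1)).congr fun M k v hv => rfl

/-! ### finite modifications -/

theorem mem_list_iff (k : V) (l : List V) :
    k ∈ l ↔ ∃ n : ℕ, ¬ dr n (lc l) = ∅ ∧ k = fst (dr n (lc l)) := by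
  constructor
  · intro hk
    obtain ⟨i, hi, rfl⟩ := List.getElem_of_mem hk
    refine ⟨i, ?_, ?_⟩
    · rw [dr_lc, lc_eq_empty, List.drop_eq_nil_iff]
      omega
    · rw [dr_lc, List.drop_eq_getElem_cons hi]
      show _ = fst (ZFSet.pair _ _)
      rw [fst_pair]
  · rintro ⟨n, h1, rfl⟩
    rw [dr_lc, lc_eq_empty, List.drop_eq_nil_iff] at h1
    have hn : n < l.length := by omega
    rw [dr_lc, List.drop_eq_getElem_cons hn]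
    show fst (ZFSet.pair _ _) ∈ l
    rw [fst_pair]
    exact List.getElem_mem hn

/-- the condition in terms of the code of the list -/
def HP (κ X p : V) : Prop := ∃ s ∈ Lw κ, ∀ k ∈ κ,
  ¬ (∃ n ∈ om, ¬ dr (nn n) s = ∅ ∧ k = fst (dr (nn n) s)) → ZFSet.pair k (app p k) ∈ X

theorem HP_iff (κ X p : V) : HP κ X p ↔ ∃ l : List V, (∀ x ∈ l, x ∈ κ) ∧
    ∀ k ∈ κ, k ∉ l → ZFSet.pair k (app p k) ∈ X := by
  have key : ∀ (l : List V) (k : V),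
      (∃ n ∈ om, ¬ dr (nn n) (lc l) = ∅ ∧ k = fst (dr (nn n) (lc l))) ↔ k ∈ l := by
    intro l k
    rw [mem_list_iff]
    constructor
    · rintro ⟨n, -, h⟩
      exact ⟨nn n, h⟩
    · rintro ⟨n, h⟩
      exact ⟨nS n, nS_mem_om n, by rw [nn_nS]; exact h⟩
  constructor
  · rintro ⟨s, hs, h⟩
    obtain ⟨l, hl, rfl⟩ := mem_Lw.1 hs
    exact ⟨l, hl, fun k hk hkl => h k hk fun h2 => hkl ((key l k).1 h2)⟩
  · rintro ⟨l, hl, h⟩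
    exact ⟨lc l, mem_Lw.2 ⟨l, hl, rfl⟩, fun k hk h2 => h k hk fun h3 => h2 ((key l k).2 h3)⟩

theorem dfb_HP : Dfb ZFm (fun _ v => HP (v 0) (v 1) (v 2)) := by
  unfold HP
  refine Dfb.bex (R := fun _ u => ∀ k ∈ u 1,
    ¬ (∃ n ∈ om, ¬ dr (nn n) (u 0) = ∅ ∧ k = fst (dr (nn n) (u 0))) →
      ZFSet.pair k (app (u 3) k) ∈ u 2) ktr_zfm (Tm.Lw (Tm.var 0)) ?_
  refine Dfb.ball (R := fun _ u =>
    ¬ (∃ n ∈ om, ¬ dr (nn n) (u 1) = ∅ ∧ u 0 = fst (dr (nn n) (u 1))) →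
      ZFSet.pair (u 0) (app (u 4) (u 0)) ∈ u 3) ktr_zfm (Tm.var 1) ?_
  refine Dfb.imp (Dfb.not ?_)
    (Dfb.mem (Tm.pair (Tm.var 0) (Tm.app (Tm.var 4) (Tm.var 0))) (Tm.var 3))
  refine Dfb.bex (R := fun _ u => ¬ dr (nn (u 0)) (u 2) = ∅ ∧ u 1 = fst (dr (nn (u 0)) (u 2)))
    ktr_zfm Tm.om ?_
  have h1 : Tm ZFm (fun _ u => dr (nn (u 0)) (u 2)) := Tm.dr (Tm.var 0) (Tm.var 2)
  exact (Dfb.eq h1 Tm.empty).not.and (Dfb.eq (Tm.var 1) (Tm.fst h1))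

theorem tm_Hs : Tm ZFm (fun _ v => Hs (v 0) (v 1) (v 2)) := by
  have h1 : Dfb ZFm (fun _ u => HP (u 1) (u 3) (u 0)) :=
    Dfb.at3 (P := fun _ x y z => HP x y z) dfb_HP (Tm.var 1) (Tm.var 3) (Tm.var 0)
  refine (Tm.sep (f := fun _ v => v 1) h1 (Tm.var 1)).congr fun M k v hv => ?_
  ext p
  unfold Hs
  simp only [ZFSet.mem_sep]
  exact and_congr_right fun _ => HP_iff _ _ _

/-! ### active nodes -/

theorem Ac_iff (t X H i : V) : Ac t X H i ↔ snd (app t i) = ∅ ∨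
    (∃ z ∈ X, IsPr z ∧ snd (app t i) = ZFSet.pair (nS 1) z ∧ fst z ∈ i ∧
      fst (app t i) ∈ fst (app t (fst z)) ∧ Ac t X H (fst z)) ∨
    ∃ p ∈ H, snd (app t i) = ZFSet.pair (nS 2) p := by
  constructor
  · intro h
    cases h with
    | z _ h1 => exact Or.inl h1
    | s _ j q h1 h2 h3 h4 h5 =>
      refine Or.inr (Or.inl ⟨_, h5, ⟨j, q, rfl⟩, h1, ?_, ?_, ?_⟩)
      · rw [fst_pair]; exact h2
      · rw [fst_pair]; exact h3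
      · rw [fst_pair]; exact h4
    | h _ p h1 h2 => exact Or.inr (Or.inr ⟨p, h2, h1⟩)
  · rintro (h1 | ⟨z, hz, ⟨j, q, rfl⟩, h1, h2, h3, h4⟩ | ⟨p, hp, h1⟩)
    · exact Ac.z i h1
    · rw [fst_pair] at h2 h3 h4
      exact Ac.s i j q h1 h2 h3 h4 hz
    · exact Ac.h i p h1 hp

/-- the characteristic function of the active nodes: the arguments are `i`, `t`, `X`, `H` -/
noncomputable def cA (_ : V → Prop) (v : ℕ → V) : V := sel (Ac (v 1) (v 2) (v 3) (v 0)) {∅} ∅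

theorem sing_ne : ({∅} : V) ≠ ∅ := by
  intro h
  have : (∅ : V) ∈ ({∅} : V) := ZFSet.mem_singleton.2 rfl
  rw [h] at this
  exact ZFSet.notMem_empty _ this

theorem cA_ne (M : V → Prop) (v : ℕ → V) : ¬ cA M v = ∅ ↔ Ac (v 1) (v 2) (v 3) (v 0) := by
  unfold cA
  by_cases h : Ac (v 1) (v 2) (v 3) (v 0)
  · rw [sel_pos h]
    exact ⟨fun _ => h, fun _ => sing_ne⟩
  · rw [sel_neg h]
    exact ⟨fun h1 => absurd rfl h1, fun h1 => absurd h1 h⟩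

theorem tm_cA : Tm ZFm cA := by
  refine tm_recu (ext := fun _ v => v 0)
    (Φ := fun _ u => sel (snd (app (u 2) (u 1)) = ∅ ∨
      (∃ z ∈ u 3, IsPr z ∧ snd (app (u 2) (u 1)) = ZFSet.pair (nS 1) z ∧ fst z ∈ u 1 ∧
        fst (app (u 2) (u 1)) ∈ fst (app (u 2) (fst z)) ∧ ¬ app (u 0) (fst z) = ∅) ∨
      ∃ p ∈ u 4, snd (app (u 2) (u 1)) = ZFSet.pair (nS 2) p) {∅} ∅)
    ZFSet.rank (Tm.var 0) ?_ ?_ ?_
  · refine Tm.sel (Dfb.or ?_ (Dfb.or ?_ ?_)) (Tm.sing Tm.empty) Tm.empty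
    · exact Dfb.eq (Tm.snd (Tm.app (Tm.var 2) (Tm.var 1))) Tm.empty
    · refine Dfb.bex (R := fun _ w => IsPr (w 0) ∧
        snd (app (w 3) (w 2)) = ZFSet.pair (nS 1) (w 0) ∧ fst (w 0) ∈ w 2 ∧
        fst (app (w 3) (w 2)) ∈ fst (app (w 3) (fst (w 0))) ∧ ¬ app (w 1) (fst (w 0)) = ∅)
        ktr_zfm (Tm.var 3) ?_
      have a1 : Tm ZFm (fun _ w => app (w 3) (w 2)) := Tm.app (Tm.var 3) (Tm.var 2)
      have a2 : Tm ZFm (fun _ w => fst (w 0)) := Tm.fst (Tm.var 0)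
      have a3 : Tm ZFm (fun _ w => app (w 3) (fst (w 0))) := Tm.app (Tm.var 3) a2
      exact (Dfb.isPr (Tm.var 0)).and ((Dfb.eq (Tm.snd a1) (Tm.pair (Tm.nS 1) (Tm.var 0))).and
        ((Dfb.mem a2 (Tm.var 2)).and ((Dfb.mem (Tm.fst a1) (Tm.fst a3)).and
          (Dfb.eq (Tm.app (Tm.var 1) a2) Tm.empty).not)))
    · exact Dfb.bex (R := fun _ w => snd (app (w 3) (w 2)) = ZFSet.pair (nS 2) (w 0)) ktr_zfm
        (Tm.var 4) (Dfb.eq (Tm.snd (Tm.app (Tm.var 3) (Tm.var 2))) (Tm.pair (Tm.nS 2) (Tm.var 0)))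
  · intro M k v hv y hy
    exact ZFSet.rank_lt_of_mem hy
  · intro M k v hv
    have key : Ac (v 1) (v 2) (v 3) (v 0) ↔ (snd (app (v 1) (v 0)) = ∅ ∨
        (∃ z ∈ v 2, IsPr z ∧ snd (app (v 1) (v 0)) = ZFSet.pair (nS 1) z ∧ fst z ∈ v 0 ∧
          fst (app (v 1) (v 0)) ∈ fst (app (v 1) (fst z)) ∧
          ¬ app (resS (v 0) fun y => cA M (cons y fun i => v (i + 1))) (fst z) = ∅) ∨
        ∃ p ∈ v 3, snd (app (v 1) (v 0)) = ZFSet.pair (nS 2) p) := by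
      rw [Ac_iff]
      refine or_congr_right (or_congr_left ?_)
      refine exists_congr fun z => and_congr_right fun _ => and_congr_right fun _ =>
        and_congr_right fun _ => and_congr_right fun h1 => and_congr_right fun _ => ?_
      rw [app_resS h1, cA_ne]
      rfl
    show sel (Ac (v 1) (v 2) (v 3) (v 0)) {∅} ∅ = sel _ {∅} ∅
    by_cases h : Ac (v 1) (v 2) (v 3) (v 0)
    · rw [sel_pos h]
      exact (sel_pos (key.1 h)).symm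
    · rw [sel_neg h]
      exact (sel_neg (fun h2 => h (key.2 h2))).symm

theorem dfb_Ac : Dfb ZFm (fun _ v => Ac (v 1) (v 2) (v 3) (v 0)) :=
  (Dfb.eq tm_cA Tm.empty).not.congr fun M k v hv => cA_ne M v

theorem tm_As : Tm ZFm (fun _ v => As (v 0) (v 1) (v 2) (v 3) (v 4)) := by
  have h1 : Dfb ZFm (fun _ u => Ac (u 2) (u 3) (u 4) (u 0)) :=
    dfb_Ac.rn (fun i => match i with
      | 0 => 0
      | i + 1 => i + 2)
  have h2 : Dfb ZFm (fun _ u => Ac (u 2) (u 3) (u 4) (u 0) ∧ u 5 ⊆ fst (app (u 2) (u 0))) :=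
    h1.and (Dfb.subset (Tm.var 5) (Tm.fst (Tm.app (Tm.var 2) (Tm.var 0))))
  exact (Tm.sep (f := fun _ v => v 0) h2 (Tm.var 0)).congr fun M k v hv => rfl

theorem tm_aS : Tm ZFm (fun _ v => aS (v 0) (v 1) (v 2) (v 3) (v 4)) := by
  have h1 : Tm ZFm (fun _ u => As (u 1) (u 2) (u 3) (u 4) (u 5)) := tm_As.rn (fun i => i + 1)
  have h2 : Dfb ZFm (fun _ u => IsPr (u 0) ∧ fst (u 0) ∈ As (u 1) (u 2) (u 3) (u 4) (u 5)) :=
    (Dfb.isPr (Tm.var 0)).and (Dfb.mem (Tm.fst (Tm.var 0)) h1)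
  exact (Tm.sep (f := fun _ v => v 2) h2 (Tm.var 2)).congr fun M k v hv => rfl

theorem pf_PC : T_PC :=
  ⟨dfb_isQ, dfb_Ee, tm_rst, tm_cat, tm_upd, tm_fib, tm_Xs, tm_Hs, tm_Qs, tm_Qr, tm_As, tm_aS⟩

end Pool.Agent.H69.CA

theorem CAA.pf_PC : CAA.T_PC := Pool.Agent.H69.CA.pf_PC
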