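import Pool.Agent.H9.CA.Tool

/-!
# DY: partial functions can be used instead of total functions
-/

set_option linter.unusedVariables false

open Ordinal Order Set
open scoped ZFSet

namespace Pool.Agent.H69.CA

open SF CAA

/-! ### an enumeration of the pairs of natural numbers -/

/-- the Cantor step -/
noncomputable def stV (t : V) : V :=
  sel (fst t ∈ (∅ : V) ∨ snd t = ∅) (ZFSet.pair ∅ (insert (fst t) (fst t)))
    (ZFSet.pair (insert (fst t) (fst t)) (⋃₀ (snd t) : ZFSet))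

/-- the pairs as sets -/
noncomputable def Ev (m : ℕ) : V :=
  it (fun _ u => stV (u 0)) (fun _ _ => ZFSet.pair ∅ ∅) (fun _ => True) (fun _ => ∅) m

/-- the pairs -/
def en : ℕ → ℕ × ℕ
  | 0 => (0, 0)
  | m + 1 => if (en m).2 = 0 then (0, (en m).1 + 1) else ((en m).1 + 1, (en m).2 - 1)

theorem en_surj (s : ℕ) : ∀ a ≤ s, ∃ m, en m = (a, s - a) := by
  induction s with
  | zero =>
    intro a ha
    have : a = 0 := by omega
    subst this
    exact ⟨0, rfl⟩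
  | succ s ih =>
    intro a
    induction a with
    | zero =>
      intro _
      obtain ⟨m, hm⟩ := ih s le_rfl
      refine ⟨m + 1, ?_⟩
      have h2 : (en m).2 = 0 := by rw [hm]; exact Nat.sub_self s
      have h1 : (en m).1 = s := by rw [hm]
      show (if (en m).2 = 0 then (0, (en m).1 + 1) else ((en m).1 + 1, (en m).2 - 1)) = _
      rw [if_pos h2, h1]
      rfl
    | succ a iha =>
      intro ha
      obtain ⟨m, hm⟩ := iha (by omega)
      refine ⟨m + 1, ?_⟩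
      have h2 : (en m).2 = s + 1 - a := by rw [hm]
      have h1 : (en m).1 = a := by rw [hm]
      show (if (en m).2 = 0 then (0, (en m).1 + 1) else ((en m).1 + 1, (en m).2 - 1)) = _
      rw [if_neg (by omega), h1, h2]
      congr 1

theorem en_surj' (n k : ℕ) : ∃ m, en m = (n, k) := by
  obtain ⟨m, hm⟩ := en_surj (n + k) n (Nat.le_add_right _ _)
  exact ⟨m, by rw [hm, Nat.add_sub_cancel_left]⟩

theorem sUnion_nS (n : ℕ) : (⋃₀ (nS (n + 1)) : ZFSet) = nS n := by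
  rw [nS_succ]
  ext z
  rw [ZFSet.mem_sUnion]
  constructor
  · rintro ⟨y, hy, hz⟩
    rw [ZFSet.mem_insert_iff] at hy
    rcases hy with rfl | hy
    · exact hz
    · exact (ZFSet.isOrdinal_toZFSet _).mem_trans hz hy
  · intro hz
    exact ⟨nS n, by simp, hz⟩

theorem Ev_eq (m : ℕ) : Ev m = ZFSet.pair (nS (en m).1) (nS (en m).2) := by
  induction m with
  | zero =>
    show ZFSet.pair ∅ ∅ = ZFSet.pair (nS 0) (nS 0)
    rw [nS_zero]
  | succ m ih =>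
    have h1 : Ev (m + 1) = stV (Ev m) := rfl
    rw [h1, ih]
    unfold stV
    rw [fst_pair, snd_pair]
    show _ = ZFSet.pair (nS (if (en m).2 = 0 then (0, (en m).1 + 1)
      else ((en m).1 + 1, (en m).2 - 1)).1) (nS (if (en m).2 = 0 then (0, (en m).1 + 1)
      else ((en m).1 + 1, (en m).2 - 1)).2)
    by_cases h : (en m).2 = 0
    · rw [if_pos h, h, sel_pos (Or.inr nS_zero), nS_succ, nS_zero]
    · obtain ⟨b, hb⟩ := Nat.exists_eq_succ_of_ne_zero h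
      rw [if_neg h, hb, sel_neg, sUnion_nS, nS_succ]
      · rfl
      · rintro (h2 | h2)
        · exact ZFSet.notMem_empty _ h2
        · exact nS_ne_empty b h2

theorem it_Ev (M : V → Prop) (v : ℕ → V) (n : ℕ) :
    it (fun _ u => stV (u 0)) (fun _ _ => ZFSet.pair ∅ ∅) M v n = Ev n := by
  induction n with
  | zero => rfl
  | succ n ih =>
    show stV (it (fun _ u => stV (u 0)) (fun _ _ => ZFSet.pair ∅ ∅) M v n) = _
    rw [ih]
    rfl

variable {f g : (V → Prop) → (ℕ → V) → V}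

theorem tm_stV : Tm ZFm (fun _ u => stV (u 0)) :=
  Tm.sel ((Dfb.mem (Tm.fst (Tm.var 0)) Tm.empty).or (Dfb.eq (Tm.snd (Tm.var 0)) Tm.empty))
    (Tm.pair Tm.empty (Tm.ins (Tm.fst (Tm.var 0)) (Tm.fst (Tm.var 0))))
    (Tm.pair (Tm.ins (Tm.fst (Tm.var 0)) (Tm.fst (Tm.var 0))) (Tm.sUnion (Tm.snd (Tm.var 0))))

theorem tm_Ev (hf : Tm ZFm f) : Tm ZFm (fun M v => Ev (nn (f M v))) :=
  (Tm.it tm_stV (Tm.pair Tm.empty Tm.empty) hf).congr fun M k v hv => it_Ev M v _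

/-! ### the extended functions -/

/-- the default value -/
noncomputable def dflt (a0 s : V) : V := sel (s = ∅) a0 (fst s)

/-- the defining property of the extended functions -/
def PP (A F a0 z : V) : Prop :=
  fst (snd z) ∈ ls A (nn (snd (Ev (nn (fst z))))) ∧
    (ZFSet.pair (fst (Ev (nn (fst z)))) (ZFSet.pair (fst (snd z)) (snd (snd z))) ∈ F ∨
      (¬ (∃ y' ∈ A, ZFSet.pair (fst (Ev (nn (fst z)))) (ZFSet.pair (fst (snd z)) y') ∈ F) ∧
        snd (snd z) = dflt a0 (fst (snd z))))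

theorem dfb_PP : Dfb ZFm (fun _ u => PP (u 1) (u 2) (u 3) (u 0)) := by
  have he : Tm ZFm (fun _ (u : ℕ → V) => Ev (nn (fst (u 0)))) := tm_Ev (Tm.fst (Tm.var 0))
  have he1 : Tm ZFm (fun _ (u : ℕ → V) => Ev (nn (fst (u 1)))) := tm_Ev (Tm.fst (Tm.var 1))
  have hs : Tm ZFm (fun _ (u : ℕ → V) => fst (snd (u 0))) := Tm.fst (Tm.snd (Tm.var 0))
  have hs1 : Tm ZFm (fun _ (u : ℕ → V) => fst (snd (u 1))) := Tm.fst (Tm.snd (Tm.var 1))
  have hy : Tm ZFm (fun _ (u : ℕ → V) => snd (snd (u 0))) := Tm.snd (Tm.snd (Tm.var 0))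
  have h1 : Dfb ZFm (fun _ (u : ℕ → V) => fst (snd (u 0)) ∈
      ls (u 1) (nn (snd (Ev (nn (fst (u 0))))))) :=
    Dfb.mem hs (Tm.ls (Tm.var 1) (Tm.snd he))
  have h2 : Dfb ZFm (fun _ (u : ℕ → V) => ZFSet.pair (fst (Ev (nn (fst (u 0)))))
      (ZFSet.pair (fst (snd (u 0))) (snd (snd (u 0)))) ∈ u 2) :=
    Dfb.mem (Tm.pair (Tm.fst he) (Tm.pair hs hy)) (Tm.var 2)
  have h3 : Dfb ZFm (fun _ (u : ℕ → V) => ∃ y' ∈ u 1, ZFSet.pair (fst (Ev (nn (fst (u 0)))))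
      (ZFSet.pair (fst (snd (u 0))) y') ∈ u 2) :=
    Dfb.bex (R := fun _ u => ZFSet.pair (fst (Ev (nn (fst (u 1)))))
      (ZFSet.pair (fst (snd (u 1))) (u 0)) ∈ u 3) ktr_zfm (Tm.var 1)
      (Dfb.mem (Tm.pair (Tm.fst he1) (Tm.pair hs1 (Tm.var 0))) (Tm.var 3))
  have h4 : Dfb ZFm (fun _ (u : ℕ → V) => snd (snd (u 0)) = dflt (u 3) (fst (snd (u 0)))) :=
    Dfb.eq hy (Tm.sel (Dfb.eq hs Tm.empty) (Tm.var 3) (Tm.fst hs))
  exact h1.and (h2.or (h3.not.and h4))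

/-- the extended functions -/
noncomputable def F' (A F a0 : V) : V :=
  (ZFSet.prod om (ZFSet.prod (Lw A) A)).sep fun z => PP A F a0 z

theorem mem_F' {A F a0 : V} (m : ℕ) (l : List V) (y : V) :
    ZFSet.pair (nS m) (ZFSet.pair (lc l) y) ∈ F' A F a0 ↔
      (∀ p ∈ l, p ∈ A) ∧ y ∈ A ∧ l.length = (en m).2 ∧
      (ZFSet.pair (nS (en m).1) (ZFSet.pair (lc l) y) ∈ F ∨
        (¬ (∃ y' ∈ A, ZFSet.pair (nS (en m).1) (ZFSet.pair (lc l) y') ∈ F) ∧
          y = dflt a0 (lc l))) := by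
  unfold F' PP
  rw [ZFSet.mem_sep, ZFSet.pair_mem_prod, ZFSet.pair_mem_prod, fst_pair, snd_pair, fst_pair,
    snd_pair, nn_nS, Ev_eq, fst_pair, snd_pair, nn_nS, mem_Lw, mem_ls]
  constructor
  · rintro ⟨⟨-, ⟨l', hl', hll⟩, hy⟩, ⟨l'', hl1, hl2, hl3⟩, h⟩
    have e1 := lc_inj hl3
    subst e1
    exact ⟨hl2, hy, hl1, h⟩
  · rintro ⟨hl, hy, hk, h⟩
    exact ⟨⟨nS_mem_om m, ⟨l, hl, rfl⟩, hy⟩, ⟨l, hk, hl, rfl⟩, h⟩

theorem dflt_mem {A a0 : V} (ha : a0 ∈ A) (l : List V) (hl : ∀ p ∈ l, p ∈ A) :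
    dflt a0 (lc l) ∈ A := by
  unfold dflt
  cases l with
  | nil =>
    rw [sel_pos (lc_eq_empty.2 rfl)]
    exact ha
  | cons a l =>
    rw [sel_neg (fun h => by
      have := lc_eq_empty.1 h
      cases this)]
    show fst (ZFSet.pair a (lc l)) ∈ A
    rw [fst_pair]
    exact hl a (by simp)

/-- the values of a partial function are in `A` -/
theorem val_mem {A F : V} (hF : FinP A F) {n : ℕ} {l : List V} {y : V}
    (h : ZFSet.pair (nS n) (ZFSet.pair (lc l) y) ∈ F) : y ∈ A := by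
  obtain ⟨n', l', y', -, hy', he⟩ := hF.sub _ h
  obtain ⟨-, h2⟩ := ZFSet.pair_inj.1 he
  obtain ⟨-, h3⟩ := ZFSet.pair_inj.1 h2
  rw [h3]
  exact hy'

theorem pf_DY : T_DY := by
  intro N hN A F hA hF ⟨a0, ha0⟩ hP
  have hNa0 : N a0 := hN.trans A hA a0 ha0
  refine ⟨F' A F a0, ?_, ?_, ?_⟩
  · -- the set belongs to the class
    have h1 : Tm ZFm (fun _ v => (ZFSet.prod om (ZFSet.prod (Lw (v 0)) (v 0))).sep fun z =>
        PP (v 0) (v 1) (v 2) z) := by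
      have h2 := Tm.sep (f := fun _ v => ZFSet.prod om (ZFSet.prod (Lw (v 0)) (v 0))) dfb_PP
        (Tm.prod Tm.om (Tm.prod (Tm.Lw (Tm.var 0)) (Tm.var 0)))
      exact h2.congr fun M k v hv => rfl
    have h3 := h1.1 N hN (cons A (cons F fun _ => a0)) (by
      intro i
      match i with
      | 0 => exact hA
      | 1 => exact hF
      | i + 2 => exact hNa0)
    exact h3
  · constructor
    · intro z hz
      have h1 := (ZFSet.mem_sep.1 hz).1
      obtain ⟨a, ha, b, hb, rfl⟩ := ZFSet.mem_prod.1 h1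
      obtain ⟨s, hs, y, hy, rfl⟩ := ZFSet.mem_prod.1 hb
      obtain ⟨n, rfl⟩ := mem_om.1 ha
      obtain ⟨l, hl, rfl⟩ := mem_Lw.1 hs
      exact ⟨n, l, y, hl, hy, rfl⟩
    · intro m l y y' h h'
      obtain ⟨-, hy, -, h1⟩ := (mem_F' m l y).1 h
      obtain ⟨-, hy', -, h2⟩ := (mem_F' m l y').1 h'
      rcases h1 with h1 | ⟨h1, e1⟩
      · rcases h2 with h2 | ⟨h2, e2⟩
        · exact hP.svl _ _ _ _ h1 h2
        · exact absurd ⟨y, hy, h1⟩ h2
      · rcases h2 with h2 | ⟨h2, e2⟩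
        · exact absurd ⟨y', hy', h2⟩ h1
        · rw [e1, e2]
    · intro m
      refine ⟨(en m).2, fun l hl => ⟨fun hk => ?_, ?_⟩⟩
      · by_cases hd : ∃ y' ∈ A, ZFSet.pair (nS (en m).1) (ZFSet.pair (lc l) y') ∈ F
        · obtain ⟨y, hy, h⟩ := hd
          exact ⟨y, (mem_F' m l y).2 ⟨hl, hy, hk, Or.inl h⟩⟩
        · exact ⟨_, (mem_F' m l _).2 ⟨hl, dflt_mem ha0 l hl, hk, Or.inr ⟨hd, rfl⟩⟩⟩
      · rintro ⟨y, h⟩
        exact ((mem_F' m l y).1 h).2.2.1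
  · intro z hz hC n l y hl h
    obtain ⟨m, hm⟩ := en_surj' n l.length
    refine hC m l y hl ((mem_F' m l y).2 ⟨fun p hp => hz (hl p hp), val_mem hP h, by rw [hm], ?_⟩)
    left
    rw [hm]
    exact h

end Pool.Agent.H69.CA

theorem CAA.pf_DY : CAA.T_DY := Pool.Agent.H69.CA.pf_DY
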